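import Pool.Agent.T9h27.D.Ser

/-!
# Euler products of degree `n` over the primes as L-series on a free monoid (helper27)

The monoid is `ℕ`, with a norm for which every prime `p` has exactly `#ι` prime elements above it,
all of the norm `p`.
-/

set_option autoImplicit false
set_option linter.unusedSectionVars false
set_option linter.unusedVariables false

open Finset Complex Filter Topology

namespace Pool.Agent.T9h27.A

open Pool.Agent.T9h27.D

/-- the completely multiplicative function with given values at the primes -/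
noncomputable def cmf {R : Type} [CommMonoidWithZero R] (t : ℕ → R) : ℕ →*₀ R where
  toFun n := if n = 0 then 0 else n.factorization.prod (fun p e => t p ^ e)
  map_zero' := by simp
  map_one' := by simp
  map_mul' m n := by
    by_cases hm : m = 0
    · simp [hm]
    by_cases hn : n = 0
    · simp [hn]
    rw [if_neg hm, if_neg hn, if_neg (mul_ne_zero hm hn), Nat.factorization_mul hm hn]
    exact Finsupp.prod_add_index' (fun a => pow_zero _) (fun a b c => pow_add _ _ _)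

lemma cmf_prime {R : Type} [CommMonoidWithZero R] (t : ℕ → R) {p : ℕ} (hp : p.Prime) :
    cmf t p = t p := by
  change (if p = 0 then 0 else p.factorization.prod (fun p e => t p ^ e)) = t p
  rw [if_neg hp.ne_zero, hp.factorization]
  simp

lemma cmf_le {t : ℕ → ℂ} (h : ∀ p, p.Prime → ‖t p‖ ≤ 1) (n : ℕ) : ‖cmf t n‖ ≤ 1 := by
  change ‖(if n = 0 then 0 else n.factorization.prod (fun p e => t p ^ e))‖ ≤ 1
  split_ifs with h0
  · simp
  · rw [Finsupp.prod, norm_prod]
    refine prod_le_one (fun p _ => norm_nonneg _) fun p hp => ?_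
    rw [norm_pow]
    exact pow_le_one₀ (norm_nonneg _) (h p (Nat.prime_of_mem_primeFactors (by simpa using hp)))

section

variable (ι : Type) [Fintype ι] [Nonempty ι]

lemma eqv_ex : Nonempty (Nat.Primes × ι ≃ Nat.Primes) := by
  have : Encodable ι := Fintype.toEncodable ι
  obtain ⟨d1⟩ := nonempty_denumerable (Nat.Primes × ι)
  obtain ⟨d2⟩ := nonempty_denumerable Nat.Primes
  exact ⟨(@Denumerable.eqv _ d1).trans (@Denumerable.eqv _ d2).symm⟩

/-- the bijection -/
noncomputable def eqv : Nat.Primes × ι ≃ Nat.Primes := (eqv_ex ι).some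

/-- the norm -/
noncomputable def Nm : ℕ →*₀ ℕ :=
  cmf fun n => if h : n.Prime then (((eqv ι).symm ⟨n, h⟩).1 : ℕ) else 1

variable {ι}

/-- the character with given values -/
noncomputable def ch (g : Nat.Primes → ι → ℂ) : ℕ →*₀ ℂ :=
  cmf fun n => if h : n.Prime then g ((eqv ι).symm ⟨n, h⟩).1 ((eqv ι).symm ⟨n, h⟩).2 else 1

lemma Nm_eqv (p : Nat.Primes) (i : ι) : Nm ι ((eqv ι (p, i) : Nat.Primes) : ℕ) = p := by
  unfold Nm
  rw [cmf_prime _ (eqv ι (p, i)).2, dif_pos (eqv ι (p, i)).2]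
  simp

lemma ch_eqv (g : Nat.Primes → ι → ℂ) (p : Nat.Primes) (i : ι) :
    ch g ((eqv ι (p, i) : Nat.Primes) : ℕ) = g p i := by
  unfold ch
  rw [cmf_prime _ (eqv ι (p, i)).2, dif_pos (eqv ι (p, i)).2]
  simp

lemma ch_le {g : Nat.Primes → ι → ℂ} (h : ∀ p i, ‖g p i‖ ≤ 1) (n : ℕ) : ‖ch g n‖ ≤ 1 := by
  refine cmf_le (fun p hp => ?_) n
  rw [dif_pos hp]
  exact h _ _

variable (ι)

lemma Nm_prime {n : ℕ} (h : n.Prime) : Nm ι n = (((eqv ι).symm ⟨n, h⟩).1 : ℕ) := by
  unfold Nm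
  rw [cmf_prime _ h, dif_pos h]

/-- the norm is of the kind considered -/
theorem ns_Nm : NS (Nm ι) (Fintype.card ι) where
  n1 := Fintype.card_pos
  pp p hp := by
    have h := Nat.prime_iff.mpr hp
    exact ⟨_, 1, ((eqv ι).symm ⟨p, h⟩).1.2, le_rfl, Fintype.card_pos, by
      rw [pow_one, Nm_prime ι h]⟩
  ab q hq := by
    obtain ⟨q', hq'⟩ : ∃ q' : Nat.Primes, (q' : ℕ) = q := ⟨⟨q, hq⟩, rfl⟩
    have hsub : {p : ℕ | Prime p ∧ q ∣ Nm ι p} ⊆
        (fun i : ι => ((eqv ι (q', i) : Nat.Primes) : ℕ)) '' Set.univ := by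
      rintro p ⟨hp, hqp⟩
      have h := Nat.prime_iff.mpr hp
      rw [Nm_prime ι h, Nat.prime_dvd_prime_iff_eq hq ((eqv ι).symm ⟨p, h⟩).1.2, ← hq'] at hqp
      refine ⟨((eqv ι).symm ⟨p, h⟩).2, Set.mem_univ _, ?_⟩
      have h1 : (q', ((eqv ι).symm ⟨p, h⟩).2) = (eqv ι).symm ⟨p, h⟩ :=
        Prod.ext (Subtype.ext hqp) rfl
      change ((eqv ι (q', ((eqv ι).symm ⟨p, h⟩).2) : Nat.Primes) : ℕ) = p
      rw [h1, Equiv.apply_symm_apply]
    refine ⟨(Set.toFinite _).subset hsub, ?_⟩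
    refine (Set.ncard_le_ncard hsub (Set.toFinite _)).trans ?_
    refine (Set.ncard_image_le (Set.toFinite _)).trans ?_
    rw [Set.ncard_univ, Nat.card_eq_fintype_card]

end

/-- the twist of a character by a Dirichlet character -/
noncomputable def twc {M : Type} [CommMonoidWithZero M] (N : M →*₀ ℕ) (ψ : M →*₀ ℂ) {q : ℕ}
    (χ : DirichletCharacter ℂ q) : M →*₀ ℂ where
  toFun a := ψ a * χ ((N a : ℕ) : ZMod q)
  map_zero' := by simp
  map_one' := by simp
  map_mul' a b := by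
    simp only [map_mul, Nat.cast_mul]
    ring

section

variable (ι : Type) [Fintype ι] [Nonempty ι]

/-- **the Euler product** -/
theorem LA_euler {g : Nat.Primes → ι → ℂ} (h : ∀ p i, ‖g p i‖ ≤ 1) {q : ℕ}
    (χ : DirichletCharacter ℂ q) {s : ℂ} (hs : 3 / 2 ≤ s.re) :
    HasProd (fun p : Nat.Primes => ∏ i, (1 - g p i * χ ((p : ℕ) : ZMod q) *
      ((p : ℕ) : ℂ) ^ (-s))⁻¹) (LA (Nm ι) (twc (Nm ι) (ch g) χ) s) := by
  have hns := ns_Nm ι
  have hs0 : s ≠ 0 := by
    rintro rfl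
    norm_num at hs
  obtain ⟨f, hf⟩ : ∃ f : ℕ →*₀ ℂ, ∀ a, f a = twc (Nm ι) (ch g) χ a *
      ((Nm ι a : ℕ) : ℂ) ^ (-s) := by
    refine ⟨{ toFun := fun a => twc (Nm ι) (ch g) χ a * ((Nm ι a : ℕ) : ℂ) ^ (-s)
              map_zero' := by simp
              map_one' := by simp
              map_mul' := fun a b => ?_ }, fun a => rfl⟩
    rw [map_mul, map_mul, Nat.cast_mul, Complex.natCast_mul_natCast_cpow]
    ring
  have hsum : Summable (fun a => ‖f a‖) := by
    refine Summable.of_nonneg_of_le (fun _ => norm_nonneg _) (fun a => ?_) hns.sm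
    rcases Nat.eq_zero_or_pos (Nm ι a) with h0 | h0
    · have h1 : ((Nm ι a : ℕ) : ℂ) ^ (-s) = 0 := by
        rw [h0, Nat.cast_zero, Complex.zero_cpow (neg_ne_zero.mpr hs0)]
      rw [hf, h1, mul_zero, norm_zero]
      positivity
    · have h0' : (1 : ℝ) ≤ (Nm ι a : ℝ) := by exact_mod_cast h0
      rw [hf, norm_mul, Complex.norm_natCast_cpow_of_pos h0]
      have h1 : ‖twc (Nm ι) (ch g) χ a‖ ≤ 1 := by
        change ‖ch g a * χ ((Nm ι a : ℕ) : ZMod q)‖ ≤ 1
        rw [norm_mul]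
        exact mul_le_one₀ (ch_le h a) (norm_nonneg _) (χ.norm_le_one _)
      calc ‖twc (Nm ι) (ch g) χ a‖ * (Nm ι a : ℝ) ^ (-s).re ≤
          1 * (Nm ι a : ℝ) ^ (-(3 / 2) : ℝ) := by
            refine mul_le_mul h1 (Real.rpow_le_rpow_of_exponent_le h0' ?_) (by positivity)
              zero_le_one
            rw [Complex.neg_re]
            linarith
        _ = _ := one_mul _
  have h1 := EulerProduct.eulerProduct_completely_multiplicative_hasProd hsum
  have h2 : ∑' n, f n = LA (Nm ι) (twc (Nm ι) (ch g) χ) s := by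
    unfold LA
    exact tsum_congr hf
  rw [h2, ← (eqv ι).hasProd_iff] at h1
  refine (h1.prod_fiberwise (g := fun p : Nat.Primes => ∏ i, (1 - g p i *
    χ ((p : ℕ) : ZMod q) * ((p : ℕ) : ℂ) ^ (-s))⁻¹) fun p => ?_)
  have h3 : (fun i : ι => ((fun p : Nat.Primes => (1 - f p)⁻¹) ∘ (eqv ι)) (p, i)) =
      fun i => (1 - g p i * χ ((p : ℕ) : ZMod q) * ((p : ℕ) : ℂ) ^ (-s))⁻¹ := by
    funext i
    change (1 - f ((eqv ι (p, i) : Nat.Primes) : ℕ))⁻¹ = _
    rw [hf]
    change (1 - ch g ((eqv ι (p, i) : Nat.Primes) : ℕ) * χ ((Nm ι ((eqv ι (p, i) :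
      Nat.Primes) : ℕ) : ℕ) : ZMod q) * _)⁻¹ = _
    rw [ch_eqv, Nm_eqv]
  rw [h3]
  exact hasProd_fintype _

end

end Pool.Agent.T9h27.A
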